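import Pool.Agent.P.MP_c76d8c_an.Tor

/-! A bilinear proof of `p`-adic `l2`-`L6` decoupling along a tree of arcs. -/

namespace Pool.Agent.P.MP_c76d8c_an.SQ

open Finset ComplexConjugate

theorem av_cs {X : Type*} [Fintype X] (F G : X → ℝ) :
    av (fun x => F x * G x) ^ 2 ≤ av (fun x => F x ^ 2) * av (fun x => G x ^ 2) := by
  unfold av
  rw [div_pow, div_mul_div_comm, sq (Fintype.card X : ℝ)]
  exact div_le_div_of_nonneg_right (sum_mul_sq_le_sq_mul_sq _ _ _) (by positivity)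

theorem sum_cube_le {κ : Type*} (Z : Finset κ) (m : κ → ℝ) (h : ∀ z, 0 ≤ m z) :
    ∑ z ∈ Z, m z ^ 3 ≤ (∑ z ∈ Z, m z) ^ 3 := by
  calc ∑ z ∈ Z, m z ^ 3 ≤ ∑ z ∈ Z, m z * (∑ z ∈ Z, m z) ^ 2 := by
        refine sum_le_sum fun z hz => ?_
        have h1 : m z ≤ ∑ z ∈ Z, m z := single_le_sum (fun z _ => h z) hz
        have h2 := h z
        calc m z ^ 3 = m z * m z ^ 2 := by ring
          _ ≤ _ := by gcongr
    _ = _ := by rw [← sum_mul]; ring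

/-- The pointwise broad-narrow inequality. -/
theorem bn {κ : Type*} [DecidableEq κ] (Z : Finset κ) (x : κ → ℝ) (hx : ∀ z, 0 ≤ x z) {P δ : ℝ}
    (hP : (Z.card : ℝ) ≤ P) (hδ : 0 < δ) :
    (∑ z ∈ Z, x z) ^ 6 ≤ (1 + δ) ^ 6 * ∑ z ∈ Z, x z ^ 6 +
      P ^ 9 / δ ^ 3 * ∑ w ∈ Z.offDiag, x w.1 ^ 3 * x w.2 ^ 3 := by
  have P0 : 0 ≤ P := (Nat.cast_nonneg _).trans hP
  have s1 : 0 ≤ ∑ z ∈ Z, x z ^ 6 := sum_nonneg fun z _ => by have := hx z; positivity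
  have s2 : 0 ≤ ∑ w ∈ Z.offDiag, x w.1 ^ 3 * x w.2 ^ 3 :=
    sum_nonneg fun w _ => by have := hx w.1; have := hx w.2; positivity
  have s0 : 0 ≤ ∑ z ∈ Z, x z := sum_nonneg fun z _ => hx z
  rcases Z.eq_empty_or_nonempty with rfl | hZ
  · simp
  obtain ⟨z0, hz0, hmax⟩ := exists_max_image Z x hZ
  have x0 := hx z0
  by_cases hc : ∀ z ∈ Z, z ≠ z0 → P * x z ≤ δ * x z0
  · have P1 : 0 < P := lt_of_lt_of_le (by exact_mod_cast hZ.card_pos) hP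
    have h1 : ∑ z ∈ Z.erase z0, x z ≤ δ * x z0 := by
      have h2 := sum_le_card_nsmul (Z.erase z0) x (δ * x z0 / P) fun z hz => by
        rw [le_div_iff₀ P1, mul_comm]
        exact hc z (mem_of_mem_erase hz) (ne_of_mem_erase hz)
      rw [nsmul_eq_mul] at h2
      have h3 : ((Z.erase z0).card : ℝ) ≤ P :=
        le_trans (by exact_mod_cast card_erase_le) hP
      calc _ ≤ _ := h2
        _ ≤ P * (δ * x z0 / P) := by gcongr
        _ = _ := by field_simp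
    have h2 : ∑ z ∈ Z, x z ≤ (1 + δ) * x z0 := by
      rw [← add_sum_erase Z x hz0]; linarith
    have h3 : x z0 ^ 6 ≤ ∑ z ∈ Z, x z ^ 6 :=
      single_le_sum (f := fun z => x z ^ 6) (fun z _ => by have := hx z; positivity) hz0
    calc _ ≤ ((1 + δ) * x z0) ^ 6 := by gcongr
      _ = (1 + δ) ^ 6 * x z0 ^ 6 := mul_pow _ _ _
      _ ≤ (1 + δ) ^ 6 * ∑ z ∈ Z, x z ^ 6 := by gcongr
      _ ≤ _ := le_add_of_nonneg_right (by positivity)
  · push Not at hc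
    obtain ⟨z1, hz1, hne, h1⟩ := hc
    have x1 := hx z1
    have h2 : ∑ z ∈ Z, x z ≤ P * x z0 := by
      have h2 := sum_le_card_nsmul Z x (x z0) hmax
      rw [nsmul_eq_mul] at h2
      exact h2.trans (by gcongr)
    have h3 : x z0 ≤ P / δ * x z1 := by
      rw [div_mul_eq_mul_div, le_div_iff₀ hδ]; linarith
    have h4 : x z0 ^ 3 * x z1 ^ 3 ≤ ∑ w ∈ Z.offDiag, x w.1 ^ 3 * x w.2 ^ 3 :=
      single_le_sum (f := fun w : κ × κ => x w.1 ^ 3 * x w.2 ^ 3)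
        (fun w _ => by have := hx w.1; have := hx w.2; positivity)
        (a := (z0, z1)) (mem_offDiag.2 ⟨hz0, hz1, hne.symm⟩)
    calc _ ≤ (P * x z0) ^ 6 := by gcongr
      _ = P ^ 6 * x z0 ^ 3 * x z0 ^ 3 := by ring
      _ ≤ P ^ 6 * x z0 ^ 3 * (P / δ * x z1) ^ 3 := by gcongr
      _ = P ^ 9 / δ ^ 3 * (x z0 ^ 3 * x z1 ^ 3) := by field_simp
      _ ≤ P ^ 9 / δ ^ 3 * ∑ w ∈ Z.offDiag, x w.1 ^ 3 * x w.2 ^ 3 := by gcongr
      _ ≤ _ := le_add_of_nonneg_left (by positivity)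

variable {Q : ℕ} [NeZero Q] {ι : Type*}

theorem sum_ch_mul {G : (Fin 3 → ZMod Q) → ℝ} {y : Fin 3 → ZMod Q} (hG : ∀ x, G (x + y) = G x)
    {k : Fin 3 → ℤ} (hk : ch k y ≠ 1) : ∑ x, ch k x * (G x : ℂ) = 0 := by
  have h2 : ∑ x, ch k x * (G x : ℂ) = (∑ x, ch k x * (G x : ℂ)) * ch k y := by
    rw [sum_mul, ← Equiv.sum_comp (Equiv.addRight y) (fun x => ch k x * (G x : ℂ))]
    refine sum_congr rfl fun x _ => ?_
    simp only [Equiv.coe_addRight, ch_add, hG]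
    ring
  by_contra h3
  exact hk (mul_left_cancel₀ h3 (h2.symm.trans (mul_one _).symm))

/-- Weighted orthogonality. -/
theorem orth {κ : Type*} [DecidableEq κ] (a : ι → Fin 3 → ℤ) (c : ι → ℂ) {I : Finset ι}
    {Z : Finset κ} {lab : ι → κ} (hZ : ∀ b ∈ I, lab b ∈ Z) {G : (Fin 3 → ZMod Q) → ℝ}
    {y : Fin 3 → ZMod Q} (hG : ∀ x, G (x + y) = G x)
    (h : ∀ b ∈ I, ∀ b' ∈ I, ch (a b - a b') y = 1 → lab b = lab b') :
    av (fun x => ‖fs a c I x‖ ^ 2 * G x) =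
      ∑ z ∈ Z, av fun x => ‖fs a c (I.filter fun b => lab b = z) x‖ ^ 2 * G x := by
  have key : ∀ J : Finset ι, ((∑ x, ‖fs a c J x‖ ^ 2 * G x : ℝ) : ℂ) =
      ∑ b ∈ J, ∑ b' ∈ J, c b * conj (c b') * ∑ x, ch (a b - a b') x * (G x : ℂ) := by
    intro J
    rw [Complex.ofReal_sum]
    simp only [Complex.ofReal_mul, fs_sq, sum_mul, mul_sum]
    rw [sum_comm]
    refine sum_congr rfl fun b _ => ?_
    rw [sum_comm]
    exact sum_congr rfl fun b' _ => sum_congr rfl fun x _ => by ring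
  unfold av
  rw [← sum_div]
  congr 1
  apply Complex.ofReal_injective
  rw [key, Complex.ofReal_sum]
  simp only [key]
  rw [← sum_fiberwise_of_maps_to hZ]
  refine sum_congr rfl fun z _ => sum_congr rfl fun b hb => ?_
  refine (sum_subset (filter_subset _ _) fun b' hb' hn => ?_).symm
  rw [sum_ch_mul hG, mul_zero]
  intro h1
  exact hn (mem_filter.2 ⟨hb', (h b (mem_filter.1 hb).1 b' hb' h1).symm.trans (mem_filter.1 hb).2⟩)

/-- the sixth moment -/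
noncomputable def E6 (Q : ℕ) [NeZero Q] (a : ι → Fin 3 → ℤ) (c : ι → ℂ) (A : Finset ι) : ℝ :=
  av fun x : Fin 3 → ZMod Q => ‖fs a c A x‖ ^ 6

/-- the bilinear moment -/
noncomputable def B24 (Q : ℕ) [NeZero Q] (a : ι → Fin 3 → ℤ) (c : ι → ℂ) (I J : Finset ι) : ℝ :=
  av fun x : Fin 3 → ZMod Q => ‖fs a c I x‖ ^ 2 * ‖fs a c J x‖ ^ 4

variable {a : ι → Fin 3 → ℤ} {c : ι → ℂ}

theorem E6_nonneg (A : Finset ι) : 0 ≤ E6 Q a c A := av_nonneg fun _ => by positivity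

theorem B24_nonneg (I J : Finset ι) : 0 ≤ B24 Q a c I J := av_nonneg fun _ => by positivity

theorem B24_sq (I J : Finset ι) : B24 Q a c I J ^ 2 ≤ B24 Q a c J I * E6 Q a c J := by
  have := av_cs (fun x : Fin 3 → ZMod Q => ‖fs a c I x‖ ^ 2 * ‖fs a c J x‖)
    (fun x => ‖fs a c J x‖ ^ 3)
  unfold B24 E6
  convert this using 3 <;> (funext x; ring)

theorem B24_cube (I J : Finset ι) : B24 Q a c I J ^ 3 ≤ E6 Q a c I * E6 Q a c J ^ 2 := by
  have h1 := B24_sq (Q := Q) (a := a) (c := c) I J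
  have h2 := B24_sq (Q := Q) (a := a) (c := c) J I
  have p1 := B24_nonneg (Q := Q) (a := a) (c := c) I J
  have p3 := E6_nonneg (Q := Q) (a := a) (c := c) I
  have p4 := E6_nonneg (Q := Q) (a := a) (c := c) J
  rcases p1.eq_or_lt with h | h
  · rw [← h]; simp only [ne_eq, OfNat.ofNat_ne_zero, not_false_eq_true, zero_pow]; positivity
  refine le_of_mul_le_mul_left ?_ h
  calc B24 Q a c I J * B24 Q a c I J ^ 3 = (B24 Q a c I J ^ 2) ^ 2 := by ring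
    _ ≤ (B24 Q a c J I * E6 Q a c J) ^ 2 := by gcongr
    _ = B24 Q a c J I ^ 2 * E6 Q a c J ^ 2 := by ring
    _ ≤ B24 Q a c I J * E6 Q a c I * E6 Q a c J ^ 2 := by gcongr
    _ = _ := by ring

theorem norm_fs_le {κ : Type*} [DecidableEq κ] {B : Finset ι} {Z : Finset κ} {lab : ι → κ}
    (hZ : ∀ b ∈ B, lab b ∈ Z) (x : Fin 3 → ZMod Q) :
    ‖fs a c B x‖ ^ 6 ≤ (∑ z ∈ Z, ‖fs a c (B.filter fun b => lab b = z) x‖) ^ 6 := by
  rw [← fs_fiber a c hZ x]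
  gcongr
  exact norm_sum_le _ _

/-- Trivial decoupling. -/
theorem split {κ : Type*} [DecidableEq κ] {B : Finset ι} {Z : Finset κ} {lab : ι → κ}
    (hZ : ∀ b ∈ B, lab b ∈ Z) {e P : ℝ} (he : 0 ≤ e) (hP : (Z.card : ℝ) ≤ P)
    (h : ∀ z ∈ Z, E6 Q a c (B.filter fun b => lab b = z) ≤
      e * ms c (B.filter fun b => lab b = z) ^ 3) : E6 Q a c B ≤ P ^ 5 * e * ms c B ^ 3 := by
  have P0 : 0 ≤ P := (Nat.cast_nonneg _).trans hP
  calc E6 Q a c B ≤ av fun x : Fin 3 → ZMod Q =>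
        P ^ 5 * ∑ z ∈ Z, ‖fs a c (B.filter fun b => lab b = z) x‖ ^ 6 := by
        refine av_mono fun x => (norm_fs_le hZ x).trans ?_
        refine (pow_sum_le_card_mul_sum_pow (fun _ _ => norm_nonneg _) 5).trans ?_
        gcongr
    _ = P ^ 5 * ∑ z ∈ Z, E6 Q a c (B.filter fun b => lab b = z) := by rw [av_mul, av_sum]; rfl
    _ ≤ P ^ 5 * ∑ z ∈ Z, e * ms c (B.filter fun b => lab b = z) ^ 3 := by
        gcongr with z hz
        exact h z hz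
    _ ≤ _ := by
        rw [← mul_sum, mul_assoc, ← ms_fiber c hZ]
        gcongr
        exact sum_cube_le _ _ fun z => ms_nonneg _ _

/-- all parameters agree modulo `p ^ j` -/
def Coh (p : ℕ) (s : ι → ℤ) (j : ℕ) (B : Finset ι) : Prop :=
  ∀ b ∈ B, ∀ b' ∈ B, (p : ℤ) ^ j ∣ s b - s b'

/-- parameters in `I` and `J` first differ at digit `j` -/
def Sep (p : ℕ) (s : ι → ℤ) (j : ℕ) (I J : Finset ι) : Prop :=
  ∀ b ∈ I, ∀ b' ∈ J, (p : ℤ) ^ j ∣ s b - s b' ∧ ¬ (p : ℤ) ^ (j + 1) ∣ s b - s b'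

theorem Coh.mono {p : ℕ} {s : ι → ℤ} {i j : ℕ} {B : Finset ι} (h : Coh p s j B) (hij : i ≤ j) :
    Coh p s i B := fun b hb b' hb' => (pow_dvd_pow _ hij).trans (h b hb b' hb')

theorem lab1 {p : ℕ} (hp : 0 < p) {s : ι → ℤ} {j : ℕ} {B : Finset ι} (h : Coh p s j B) :
    ∃ lab : ι → ℤ, (∀ b ∈ B, lab b ∈ Ico (0 : ℤ) p) ∧
      ∀ b ∈ B, ∀ b' ∈ B, (lab b = lab b' ↔ (p : ℤ) ^ (j + 1) ∣ s b - s b') := by
  rcases B.eq_empty_or_nonempty with rfl | ⟨t, ht⟩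
  · exact ⟨fun _ => 0, by simp, by simp⟩
  have p0 : (0 : ℤ) < p := by exact_mod_cast hp
  have pj : (p : ℤ) ^ j ≠ 0 := by positivity
  refine ⟨fun b => (s b - s t) / (p : ℤ) ^ j % p, fun b _ => mem_Ico.2
    ⟨Int.emod_nonneg _ p0.ne', Int.emod_lt_of_pos _ p0⟩, fun b hb b' hb' => ?_⟩
  obtain ⟨u, hu⟩ := h b hb t ht
  obtain ⟨u', hu'⟩ := h b' hb' t ht
  have e : s b - s b' = (p : ℤ) ^ j * (u - u') := by linear_combination hu - hu'
  simp only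
  rw [hu, hu', e, Int.mul_ediv_cancel_left _ pj, Int.mul_ediv_cancel_left _ pj, pow_succ,
    mul_dvd_mul_iff_left pj, Int.emod_eq_emod_iff_emod_sub_eq_zero, ← Int.dvd_iff_emod_eq_zero]

/-- The orthogonality input: translations that fix an arc and separate a transverse arc. -/
def Orth (Q : ℕ) [NeZero Q] (a : ι → Fin 3 → ℤ) (p : ℕ) (s : ι → ℤ) (k R : ℕ) (A : Finset ι) :
    Prop :=
  ∀ j b : ℕ, 2 * b ≤ R → j + b ≤ k → ∀ t ∈ A, ∃ y : Fin 3 → ZMod Q,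
    (∀ β ∈ A, (p : ℤ) ^ (j + b) ∣ s β - s t → ch (a β) y = 1) ∧
    ∀ β ∈ A, ∀ β' ∈ A, (p : ℤ) ^ j ∣ s β - s t → ¬ (p : ℤ) ^ (j + 1) ∣ s β - s t →
      (p : ℤ) ^ (j + 1) ∣ s β - s β' → ch (a β - a β') y = 1 → (p : ℤ) ^ (j + 2 * b) ∣ s β - s β'

theorem chain {p : ℕ} {s : ι → ℤ} {k r j : ℕ} {A : Finset ι} (hO : Orth Q a p s k (2 ^ r) A)
    (hj : j + 2 ^ r ≤ k) {e τ : ℝ} (he : 0 ≤ e) (hτ : 0 ≤ τ) (hτ1 : τ ≤ 1)
    (H : ∀ y, 1 ≤ y → y ≤ 2 ^ r → ∀ B ⊆ A, Coh p s (j + y) B →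
      E6 Q a c B ≤ e * τ ^ (2 * y) * ms c B ^ 3) (d : ℕ) :
    ∀ i, i + d = r → ∀ I ⊆ A, ∀ J ⊆ A, Coh p s (j + 1) I → Coh p s (j + 2 ^ i) J →
      Sep p s j I J → B24 Q a c I J ≤ e * τ ^ (2 ^ i * d) * (ms c I * ms c J ^ 2) := by
  classical
  have H1 : ∀ B ⊆ A, Coh p s (j + 1) B → E6 Q a c B ≤ e * ms c B ^ 3 := fun B hB h => by
    refine (H 1 le_rfl Nat.one_le_two_pow B hB h).trans ?_
    have := ms_nonneg c B
    have h2 : τ ^ (2 * 1) ≤ 1 := pow_le_one₀ hτ hτ1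
    calc _ ≤ e * 1 * ms c B ^ 3 := by gcongr
      _ = _ := by ring
  induction d with
  | zero =>
    intro i _ I hI J hJ h1 h2 _
    have m1 := ms_nonneg c I
    have m2 := ms_nonneg c J
    have p4 := E6_nonneg (Q := Q) (a := a) (c := c) J
    refine le_of_pow_le_pow_left₀ (n := 3) (by norm_num) (by positivity) ?_
    have a1 := H1 I hI h1
    have a2 := H1 J hJ (h2.mono (by have := @Nat.one_le_two_pow i; omega))
    calc _ ≤ _ := B24_cube I J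
      _ ≤ (e * ms c I ^ 3) * (e * ms c J ^ 3) ^ 2 := by gcongr
      _ = _ := by ring
  | succ d ih =>
    intro i hi I hI J hJ h1 h2 h3
    have m2 := ms_nonneg c J
    rcases J.eq_empty_or_nonempty with rfl | ⟨t, ht⟩
    · simp [B24, fs, ms, av]
    have i1 : 2 * 2 ^ i ≤ 2 ^ r := by
      rw [← pow_succ']; exact Nat.pow_le_pow_right (by norm_num) (by omega)
    have i0 : 1 ≤ 2 ^ i := Nat.one_le_two_pow
    obtain ⟨y, y1, y2⟩ := hO j (2 ^ i) i1 (by omega) t (hJ ht)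
    have hG : ∀ x, ‖fs a c J (x + y)‖ ^ 4 = ‖fs a c J x‖ ^ 4 := fun x => by
      congr 2
      refine sum_congr rfl fun b hb => ?_
      rw [ch_add, y1 b (hJ hb) (h2 b hb t ht), mul_one]
    set lab : ι → ℤ := fun b => s b % (p : ℤ) ^ (j + 2 * 2 ^ i) with hlab
    have hl : ∀ b b', lab b = lab b' ↔ (p : ℤ) ^ (j + 2 * 2 ^ i) ∣ s b - s b' := fun b b' => by
      rw [hlab, Int.emod_eq_emod_iff_emod_sub_eq_zero, ← Int.dvd_iff_emod_eq_zero]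
    have hZ : ∀ b ∈ I, lab b ∈ I.image lab := fun b hb => mem_image_of_mem _ hb
    have e1 := orth a c hZ (G := fun x => ‖fs a c J x‖ ^ 4) hG fun b hb b' hb' h =>
      (hl b b').2 (y2 b (hI hb) b' (hI hb') (h3 b hb t ht).1 (h3 b hb t ht).2 (h1 b hb b' hb') h)
    rw [B24, e1, ← ms_fiber c hZ, sum_mul, mul_sum]
    refine sum_le_sum fun z _ => ?_
    set I' := I.filter fun b => lab b = z with hI'
    have s1 : I' ⊆ I := filter_subset _ _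
    have m1 := ms_nonneg c I'
    have a1 := ih (i + 1) (by omega) J hJ I' (s1.trans hI) (h2.mono (by omega))
      (fun b hb b' hb' => by
        rw [pow_succ' 2 i]
        exact (hl b b').1 ((mem_filter.1 hb).2.trans (mem_filter.1 hb').2.symm))
      (fun b hb b' hb' => by
        have := h3 b' (s1 hb') b hb
        rwa [dvd_sub_comm, dvd_sub_comm (b := s b')] at this)
    have a2 := H (2 ^ i) i0 (by omega) J hJ h2
    have p4 := E6_nonneg (Q := Q) (a := a) (c := c) J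
    refine le_of_pow_le_pow_left₀ (n := 2) (by norm_num) (by positivity) ?_
    calc _ ≤ _ := B24_sq I' J
      _ ≤ (e * τ ^ (2 ^ (i + 1) * d) * (ms c J * ms c I' ^ 2)) *
          (e * τ ^ (2 * 2 ^ i) * ms c J ^ 3) := by gcongr
      _ = _ := by ring

theorem step {p : ℕ} (hp : 0 < p) {s : ι → ℤ} {k r j : ℕ} {A : Finset ι}
    (hO : Orth Q a p s k (2 ^ r) A) (hj : j + 2 ^ r ≤ k) {e τ δ : ℝ} (he : 0 ≤ e) (hτ : 0 ≤ τ)
    (hτ1 : τ ≤ 1) (hδ : 0 < δ) (hc : (1 + δ) ^ 6 * τ ^ 2 + (p : ℝ) ^ 11 / δ ^ 3 * τ ^ r ≤ 1)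
    (H : ∀ y, 1 ≤ y → y ≤ 2 ^ r → ∀ B ⊆ A, Coh p s (j + y) B →
      E6 Q a c B ≤ e * τ ^ (2 * y) * ms c B ^ 3) {B : Finset ι} (hB : B ⊆ A)
    (h : Coh p s j B) : E6 Q a c B ≤ e * ms c B ^ 3 := by
  classical
  obtain ⟨lab, hZ, hl⟩ := lab1 hp h
  set Z := Ico (0 : ℤ) p with hZd
  have hP : (Z.card : ℝ) ≤ p := by simp [hZd]
  set F : ℤ → Finset ι := fun z => B.filter fun b => lab b = z with hF
  have s1 : ∀ z, F z ⊆ B := fun z => filter_subset _ _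
  have c1 : ∀ z, Coh p s (j + 1) (F z) := fun z b hb b' hb' =>
    (hl b (s1 z hb) b' (s1 z hb')).1 ((mem_filter.1 hb).2.trans (mem_filter.1 hb').2.symm)
  have m0 := ms_nonneg c B
  have b1 : ∀ z z', z ≠ z' → B24 Q a c (F z) (F z') ≤ e * τ ^ r * ms c B ^ 3 := fun z z' hz => by
    have a1 := chain hO hj he hτ hτ1 H r 0 (zero_add r) (F z) ((s1 z).trans hB) (F z')
      ((s1 z').trans hB) (c1 z) (c1 z') fun b hb b' hb' =>
        ⟨h b (s1 z hb) b' (s1 z' hb'), fun hd => hz ((mem_filter.1 hb).2.symm.trans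
          (((hl b (s1 z hb) b' (s1 z' hb')).2 hd).trans (mem_filter.1 hb').2))⟩
    rw [pow_zero, one_mul] at a1
    have m1 := ms_mono c (s1 z)
    have m2 := ms_mono c (s1 z')
    have m3 := ms_nonneg c (F z')
    calc _ ≤ _ := a1
      _ ≤ e * τ ^ r * (ms c B * ms c B ^ 2) := by gcongr
      _ = _ := by ring
  have b2 : ∀ w ∈ Z.offDiag, av (fun x : Fin 3 → ZMod Q =>
      ‖fs a c (F w.1) x‖ ^ 3 * ‖fs a c (F w.2) x‖ ^ 3) ≤ e * τ ^ r * ms c B ^ 3 := fun w hw => by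
    have hne := (mem_offDiag.1 hw).2.2
    have a1 := b1 _ _ hne
    have a2 := b1 _ _ hne.symm
    have a3 : av (fun x : Fin 3 → ZMod Q => ‖fs a c (F w.1) x‖ ^ 3 * ‖fs a c (F w.2) x‖ ^ 3) ≤
        1 / 2 * (B24 Q a c (F w.1) (F w.2) + B24 Q a c (F w.2) (F w.1)) := by
      rw [B24, B24, ← av_add, ← av_mul]
      refine av_mono fun x => ?_
      nlinarith [sq_nonneg (‖fs a c (F w.1) x‖ * ‖fs a c (F w.2) x‖ ^ 2 -
        ‖fs a c (F w.2) x‖ * ‖fs a c (F w.1) x‖ ^ 2)]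
    linarith
  have b3 : ∑ z ∈ Z, E6 Q a c (F z) ≤ e * τ ^ 2 * ms c B ^ 3 := by
    calc _ ≤ ∑ z ∈ Z, e * τ ^ (2 * 1) * ms c (F z) ^ 3 :=
          sum_le_sum fun z _ => H 1 le_rfl Nat.one_le_two_pow _ ((s1 z).trans hB) (c1 z)
      _ ≤ _ := by
          rw [← mul_sum, ← ms_fiber c hZ]
          gcongr
          exact sum_cube_le _ _ fun z => ms_nonneg _ _
  have b4 := sum_le_card_nsmul _ _ _ b2
  have b5 : (Z.offDiag.card : ℝ) ≤ (p : ℝ) ^ 2 := by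
    have : Z.offDiag.card ≤ Z.card * Z.card := by rw [offDiag_card]; omega
    calc (Z.offDiag.card : ℝ) ≤ (Z.card : ℝ) * Z.card := by exact_mod_cast this
      _ ≤ (p : ℝ) * p := by gcongr
      _ = _ := by ring
  rw [nsmul_eq_mul] at b4
  calc E6 Q a c B ≤ av fun x : Fin 3 → ZMod Q => (1 + δ) ^ 6 * ∑ z ∈ Z, ‖fs a c (F z) x‖ ^ 6 +
        (p : ℝ) ^ 9 / δ ^ 3 * ∑ w ∈ Z.offDiag, ‖fs a c (F w.1) x‖ ^ 3 * ‖fs a c (F w.2) x‖ ^ 3 :=
        av_mono fun x => (norm_fs_le hZ x).trans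
          (bn Z (fun z => ‖fs a c (F z) x‖) (fun _ => norm_nonneg _) hP hδ)
    _ = (1 + δ) ^ 6 * ∑ z ∈ Z, E6 Q a c (F z) + (p : ℝ) ^ 9 / δ ^ 3 * ∑ w ∈ Z.offDiag,
        av (fun x : Fin 3 → ZMod Q => ‖fs a c (F w.1) x‖ ^ 3 * ‖fs a c (F w.2) x‖ ^ 3) := by
        rw [av_add, av_mul, av_mul, av_sum, av_sum]; rfl
    _ ≤ (1 + δ) ^ 6 * (e * τ ^ 2 * ms c B ^ 3) +
        (p : ℝ) ^ 9 / δ ^ 3 * ((p : ℝ) ^ 2 * (e * τ ^ r * ms c B ^ 3)) := by
        gcongr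
        exact b4.trans (by gcongr)
    _ = ((1 + δ) ^ 6 * τ ^ 2 + (p : ℝ) ^ 11 / δ ^ 3 * τ ^ r) * (e * ms c B ^ 3) := by ring
    _ ≤ 1 * (e * ms c B ^ 3) := by gcongr
    _ = _ := one_mul _

/-- Decoupling from level `k` to level `0`. -/
theorem dec {p : ℕ} (hp : 0 < p) {s : ι → ℤ} {k r : ℕ} {A : Finset ι}
    (hO : Orth Q a p s k (2 ^ r) A) {κ τ δ : ℝ} (hκ : 0 ≤ κ) (hτ : 0 < τ)
    (hτ1 : τ ≤ 1) (hδ : 0 < δ) (hc : (1 + δ) ^ 6 * τ ^ 2 + (p : ℝ) ^ 11 / δ ^ 3 * τ ^ r ≤ 1)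
    (h0 : ∀ B ⊆ A, Coh p s k B → E6 Q a c B ≤ κ * ms c B ^ 3) :
    E6 Q a c A ≤ (p : ℝ) ^ (5 * 2 ^ r) / τ ^ (2 * k) * κ * ms c A ^ 3 := by
  classical
  have p1 : (1 : ℝ) ≤ p := by exact_mod_cast hp
  have triv : ∀ x j, j + x = k → ∀ B ⊆ A, Coh p s j B →
      E6 Q a c B ≤ (p : ℝ) ^ (5 * x) * κ * ms c B ^ 3 := by
    intro x
    induction x with
    | zero =>
      intro j hj B hB h
      obtain rfl : j = k := hj
      simpa using h0 B hB h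
    | succ x ih =>
      intro j hj B hB h
      obtain ⟨lab, hZ, hl⟩ := lab1 hp h
      refine (split hZ (e := (p : ℝ) ^ (5 * x) * κ) (P := p) (by positivity) (by simp)
        fun z _ => ih (j + 1) (by omega) _ ((filter_subset _ _).trans hB)
          fun b hb b' hb' => (hl b (mem_filter.1 hb).1 b' (mem_filter.1 hb').1).1
            ((mem_filter.1 hb).2.trans (mem_filter.1 hb').2.symm)).trans (le_of_eq ?_)
      ring
  have main : ∀ x j, j + x = k → ∀ B ⊆ A, Coh p s j B →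
      E6 Q a c B ≤ (p : ℝ) ^ (5 * 2 ^ r) / τ ^ (2 * x) * κ * ms c B ^ 3 := by
    intro x
    induction x using Nat.strong_induction_on with
    | _ x ih =>
      intro j hj B hB h
      have m0 := ms_nonneg c B
      rcases le_total x (2 ^ r) with hx | hx
      · refine (triv x j hj B hB h).trans ?_
        gcongr
        rw [le_div_iff₀ (by positivity)]
        have h2 : τ ^ (2 * x) ≤ 1 := pow_le_one₀ hτ.le hτ1
        calc _ ≤ (p : ℝ) ^ (5 * 2 ^ r) * 1 := by gcongr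
          _ = _ := mul_one _
      · refine step hp hO (by omega) (by positivity) hτ.le hτ1 hδ hc
          (fun y y1 y2 B' hB' h' => ?_) hB h
        obtain ⟨x', rfl⟩ : ∃ x', x = x' + y := ⟨x - y, by omega⟩
        refine (ih x' (by omega) (j + y) (by omega) B' hB' h').trans (le_of_eq ?_)
        field_simp
        ring
  exact main k 0 (zero_add k) A Subset.rfl fun b _ b' _ => by simp

/-- Choice of the constants. -/
theorem consts {η : ℝ} (hη : 0 < η) : ∃ (δ : ℝ) (r : ℕ), 0 < δ ∧ 1 ≤ r ∧ ∀ p : ℕ, 2 ≤ p →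
    (1 + δ) ^ 6 * ((p : ℝ) ^ (-η)) ^ 2 + (p : ℝ) ^ 11 / δ ^ 3 * ((p : ℝ) ^ (-η)) ^ r ≤ 1 := by
  set θ : ℝ := (2 : ℝ) ^ (-η) with hθ
  have t0 : 0 < θ := by positivity
  have t1 : θ < 1 := Real.rpow_lt_one_of_one_lt_of_neg (by norm_num) (by linarith)
  have hcont : ContinuousAt (fun δ : ℝ => (1 + δ) ^ 6 * θ) 0 := by fun_prop
  have hev := hcont.eventually (gt_mem_nhds (show (1 + 0 : ℝ) ^ 6 * θ < 1 by simpa using t1))
  obtain ⟨δ, h1, h2⟩ := ((hev.filter_mono (nhdsWithin_le_nhds (s := Set.Ioi 0))).and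
    self_mem_nhdsWithin).exists
  have h2 : 0 < δ := h2
  obtain ⟨L, hL⟩ := exists_pow_lt_of_lt_one (show 0 < (1 - θ) * δ ^ 3 by
    have : 0 < 1 - θ := by linarith
    positivity) t1
  obtain ⟨N, hN⟩ := exists_nat_ge (11 / η)
  refine ⟨δ, N + L + 1, h2, by omega, fun p hp => ?_⟩
  have p2 : (2 : ℝ) ≤ p := by exact_mod_cast hp
  have p0 : (0 : ℝ) < p := by linarith
  set τ := (p : ℝ) ^ (-η) with hτ
  have u0 : 0 < τ := by positivity
  have u1 : τ ≤ θ := Real.rpow_le_rpow_of_nonpos (by norm_num) p2 (by linarith)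
  have a1 : (p : ℝ) ^ 11 * τ ^ N ≤ 1 := by
    rw [hτ, ← Real.rpow_natCast, ← Real.rpow_natCast, ← Real.rpow_mul p0.le, ← Real.rpow_add p0]
    refine Real.rpow_le_one_of_one_le_of_nonpos (by linarith) ?_
    rw [div_le_iff₀ hη] at hN
    push_cast
    linarith
  have a2 : (1 + δ) ^ 6 * τ ^ 2 ≤ θ := by
    calc _ ≤ (1 + δ) ^ 6 * θ ^ 2 := by gcongr
      _ = (1 + δ) ^ 6 * θ * θ := by ring
      _ ≤ 1 * θ := by gcongr
      _ = _ := one_mul _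
  have a3 : (p : ℝ) ^ 11 / δ ^ 3 * τ ^ (N + L + 1) ≤ 1 - θ := by
    have b1 : τ ≤ 1 := u1.trans t1.le
    calc _ = (p : ℝ) ^ 11 * τ ^ N * τ ^ L * τ / δ ^ 3 := by ring
      _ ≤ 1 * θ ^ L * 1 / δ ^ 3 := by gcongr
      _ ≤ _ := by rw [div_le_iff₀ (by positivity)]; linarith
  linarith

end Pool.Agent.P.MP_c76d8c_an.SQ
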