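import Pool.Agent.P.MP_c76d8c_an.SQ.Sph

/-! The sixth moment for eigenvalues `m * q ^ 2`, interpolation, and transfer to the torus. -/

namespace Pool.Agent.P.MP_c76d8c_an.SQ

open Finset Matrix MeasureTheory

theorem grid_mul {Q Q1 Q2 : ℕ} [NeZero Q] [NeZero Q1] (hQ : Q = Q1 * Q2) (S : Finset (Fin 3 → ℤ))
    (c : (Fin 3 → ℤ) → ℂ) {B : ℝ} (h : ∀ c' : (Fin 3 → ℤ) → ℂ, nr c' S = nr c S →
      av (fun y : Fin 3 → ZMod Q1 => ‖fs id c' S y‖ ^ 5) ≤ B) :
    av (fun x : Fin 3 → ZMod Q => ‖fs id c S x‖ ^ 5) ≤ B := by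
  set L : (Fin 3 → ZMod Q1) → Fin 3 → ZMod Q :=
    fun y l => ((Q2 * ((y l).val : ℤ) : ℤ) : ZMod Q) with hL
  have e : ∀ k y, ch k (L y) = ch k y := fun k y => by
    have e1 : ∑ l, (k l : ZMod Q) * L y l = ((Q2 * ∑ l, k l * ((y l).val : ℤ) : ℤ) : ZMod Q) := by
      simp only [hL, Fin.sum_univ_three]
      push_cast
      ring
    have e2 : ∑ l, (k l : ZMod Q1) * y l = ((∑ l, k l * ((y l).val : ℤ) : ℤ) : ZMod Q1) := by
      push_cast
      simp only [ZMod.natCast_zmod_val]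
    have q0 : (Q : ℂ) ≠ 0 := by exact_mod_cast NeZero.ne Q
    have q1 : (Q1 : ℂ) ≠ 0 := by exact_mod_cast NeZero.ne Q1
    have q2 : (Q : ℂ) = Q1 * Q2 := by exact_mod_cast hQ
    unfold ch
    rw [e1, e2, ZMod.stdAddChar_coe, ZMod.stdAddChar_coe, div_eq_mul_inv, div_eq_mul_inv]
    congr 1
    rw [Int.cast_mul, Int.cast_natCast]
    field_simp
    rw [q2]
    ring
  calc _ = av fun y : Fin 3 → ZMod Q1 => av fun x : Fin 3 → ZMod Q => ‖fs id c S (x + L y)‖ ^ 5 := by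
        simp only [av_shift _ fun x : Fin 3 → ZMod Q => ‖fs id c S x‖ ^ 5, av_const]
    _ = av fun x : Fin 3 → ZMod Q => av fun y : Fin 3 → ZMod Q1 => ‖fs id c S (x + L y)‖ ^ 5 :=
        av_comm _
    _ ≤ av fun _ : Fin 3 → ZMod Q => B := by
        refine av_mono fun x => le_trans (le_of_eq ?_) (h (fun b => c b * ch b x) ?_)
        · simp only [fs, id, ch_add, e, mul_assoc]
        · simp only [nr, ms, norm_mul, norm_ch, mul_one]
    _ = B := av_const _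

theorem one_le_rad (q : ℕ) : (1 : ℝ) ≤ ∏ p ∈ q.primeFactors, (p : ℝ) :=
  one_le_prod fun p hp => by exact_mod_cast (Nat.prime_of_mem_primeFactors hp).pos

theorem rad_mono {q q' : ℕ} (hq : q ≠ 0) (h : q' ∣ q) :
    ∏ p ∈ q'.primeFactors, (p : ℝ) ≤ ∏ p ∈ q.primeFactors, (p : ℝ) := by
  have := prod_le_prod_of_subset_of_one_le' (f := fun p : ℕ => p) (Nat.primeFactors_mono h hq)
    fun p hp _ => (Nat.prime_of_mem_primeFactors hp).pos
  rw [← Nat.cast_prod, ← Nat.cast_prod]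
  exact Nat.cast_le.2 this

theorem disc6 {η : ℝ} (hη : 0 < η) : ∃ (C : ℝ) (A : ℕ), 0 < C ∧ ∀ m q : ℕ, 1 ≤ m → 1 ≤ q →
    ∃ (Q : ℕ) (_ : NeZero Q), ∀ (S : Finset (Fin 3 → ℤ)) (c : (Fin 3 → ℤ) → ℂ),
      (∀ b ∈ S, b ⬝ᵥ b = (m * q ^ 2 : ℕ)) →
      av (fun x : Fin 3 → ZMod Q => ‖fs id c S x‖ ^ 5) ≤
        C * ((m * q ^ 2 : ℕ) : ℝ) ^ η * nr c S ^ 5 ∧
      av (fun x : Fin 3 → ZMod Q => ‖fs id c S x‖ ^ 6) ≤ C * ((m * q ^ 2 : ℕ) : ℝ) ^ η *
        ((∏ p ∈ q.primeFactors, (p : ℝ)) ^ A * √(√(m : ℝ))) * nr c S ^ 6 := by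
  classical
  have h8 : 0 < η / 8 := by positivity
  obtain ⟨C5, c5, h5⟩ := disc5 h8
  obtain ⟨C2, c2, h2⟩ := circ_exists h8
  obtain ⟨C3, c3, h3⟩ := tau_le h8
  obtain ⟨δ, r, hδ, -, hc⟩ := consts h8
  refine ⟨C5 + C3 ^ 5 * (7 * C2 * C5), 20 * 2 ^ r, by positivity, fun m q hm hq => ?_⟩
  set n := m * q ^ 2 with hn
  have qn : q ^ 2 ≤ n := Nat.le_mul_of_pos_left _ hm
  have qn' : q ≤ n := (Nat.le_self_pow two_ne_zero q).trans qn
  have n1 : 1 ≤ n := hq.trans qn'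
  obtain ⟨Q5, hQ5, h6⟩ := h5 n n1
  have : NeZero (Q5 * n) := ⟨mul_ne_zero (NeZero.ne _) (by omega)⟩
  refine ⟨Q5 * n, inferInstance, fun S c hS => ?_⟩
  have n1' : (1 : ℝ) ≤ n := by exact_mod_cast n1
  set N : ℝ := (n : ℝ) ^ (η / 8) with hN
  have N1 : 1 ≤ N := Real.one_le_rpow n1' h8.le
  have N8 : N ^ 8 = (n : ℝ) ^ η := by
    rw [hN, ← Real.rpow_natCast, ← Real.rpow_mul (by positivity)]
    congr 1
    push_cast
    ring
  have h7 : ∀ B ⊆ S, av (fun x : Fin 3 → ZMod (Q5 * n) => ‖fs id c B x‖ ^ 5) ≤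
      C5 * N * nr c B ^ 5 := fun B hB =>
    grid_mul rfl B c fun c' h => h ▸ h6 B c' fun b hb => hS b (hB hb)
  have s0 := nr_nonneg c S
  rw [← N8]
  constructor
  · refine (h7 S Subset.rfl).trans ?_
    gcongr
    · exact le_add_of_nonneg_right (by positivity)
    · exact le_self_pow₀ N1 (by norm_num)
  choose G v z y g1 g2 g3 using fun b => bez b q
  set X := (∏ p ∈ q.primeFactors, (p : ℝ)) ^ (20 * 2 ^ r) with hX
  have X0 : 0 ≤ X := pow_nonneg (zero_le_one.trans (one_le_rad q)) _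
  set κ := 7 * C2 * N * √(√(m : ℝ)) * (C5 * N) with hκ
  have hZ : ∀ b ∈ S, G b ∈ q.divisors := fun b _ => Nat.mem_divisors.2 ⟨g1 b, by omega⟩
  have hP : (q.divisors.card : ℝ) ≤ C3 * N := by
    refine (h3 q).trans ?_
    rw [hN]
    gcongr
  have key := split (Q := Q5 * n) (a := id) (c := c) hZ (e := X * N * κ) (by positivity) hP
    fun g hg => by
      obtain ⟨q', hq'⟩ := Nat.dvd_of_mem_divisors hg
      have g0 : (g : ℤ) ≠ 0 := by exact_mod_cast (Nat.pos_of_mem_divisors hg).ne'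
      have q0 : q' ≠ 0 := by rintro rfl; omega
      have qd : q' ∣ q := Dvd.intro_left g hq'.symm
      set A := S.filter fun b => G b = g with hA
      have m0 := ms_nonneg c A
      rcases A.eq_empty_or_nonempty with h | ⟨b0, hb0⟩
      · rw [h]; simp [E6, fs, ms, av]
      have ha : ∀ b ∈ A, b = (g : ℤ) • v b := fun b hb => (mem_filter.1 hb).2 ▸ g2 b
      have hv : ∀ b ∈ A, v b ⬝ᵥ v b = m * (q' : ℤ) ^ 2 := fun b hb => by
        have e := hS b (mem_filter.1 hb).1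
        rw [ha b hb, smul_dotProduct, dotProduct_smul, hn, hq', smul_eq_mul, smul_eq_mul] at e
        push_cast at e
        refine mul_left_cancel₀ (mul_ne_zero g0 g0) ?_
        linear_combination e
      have hz : ∀ b ∈ A, ∃ z : Fin 3 → ℤ, IsCoprime (z ⬝ᵥ v b) q' := fun b hb => by
        have e := g3 b
        rw [(mem_filter.1 hb).2, hq'] at e
        have e' : z b ⬝ᵥ b = g * z b ⬝ᵥ v b := by
          conv_lhs => rw [ha b hb]
          rw [← ha b hb]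
          conv_lhs => arg 2; rw [ha b hb]
          rw [dotProduct_smul, smul_eq_mul]
        rw [e'] at e
        push_cast at e
        exact ⟨z b, 1, y b, mul_left_cancel₀ g0 (by linear_combination e)⟩
      have o2 : ¬ 2 ∣ q' := by
        rintro ⟨w, hw⟩
        obtain ⟨z0, hz0⟩ := hz b0 hb0
        have a1 := even_of_four (v := v b0) ⟨m * (w : ℤ) ^ 2, by
          rw [hv b0 hb0, hw]; push_cast; ring⟩ z0
        have a2 := hz0.isUnit_of_dvd' a1 ⟨w, by exact_mod_cast hw⟩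
        exact absurd (Int.isUnit_iff.1 a2) (by norm_num)
      have a0 := mstep (Q := Q5 * n) (a := id) (c := c) h8 hδ hc q0 o2 (g := g)
        ⟨Q5 * m * g, by rw [hn, hq']; push_cast; ring⟩ ha
        (fun b hb => ⟨m, by rw [hv b hb]; ring⟩) hz (κ := κ) (by positivity) fun B hB h => by
          have sB : B ⊆ S := hB.trans (filter_subset _ _)
          have a1 := plank hm q0 o2 ((Nat.le_of_dvd hq qd).trans qn') (by positivity) (h2 n n1)
            (fun b hb => hS b (sB hb)) (fun b hb => ha b (hB hb)) (fun b hb => hv b (hB hb))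
            (fun b hb => hz b (hB hb)) h
          rw [← hN] at a1
          have s1 := nr_nonneg c B
          have a2 : ∀ x : Fin 3 → ZMod (Q5 * n),
              ‖fs id c B x‖ ≤ 7 * C2 * N * √(√(m : ℝ)) * nr c B := fun x => by
            refine (abs_le_of_sq_le_sq' ?_ (by positivity)).2
            refine (fs_sq_le _ _ _ _).trans ?_
            rw [mul_pow, nr_sq, mul_pow, Real.sq_sqrt (Real.sqrt_nonneg _)]
            refine mul_le_mul_of_nonneg_right (a1.trans ?_) (ms_nonneg _ _)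
            have b1 : 1 ≤ 7 * C2 * N := by nlinarith
            calc _ = 7 * C2 * N * √(m : ℝ) := by ring
              _ ≤ _ := by gcongr; exact le_self_pow₀ b1 (by norm_num)
          calc E6 (Q5 * n) id c B ≤ av fun x : Fin 3 → ZMod (Q5 * n) =>
                7 * C2 * N * √(√(m : ℝ)) * nr c B * ‖fs id c B x‖ ^ 5 := by
                refine av_mono fun x => ?_
                rw [pow_succ' _ 5]
                exact mul_le_mul_of_nonneg_right (a2 x) (by positivity)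
            _ ≤ 7 * C2 * N * √(√(m : ℝ)) * nr c B * (C5 * N * nr c B ^ 5) := by
                rw [av_mul]
                gcongr
                exact h7 B sB
            _ = _ := by rw [← nr_sq, hκ]; ring
      refine a0.trans ?_
      have b1 : (q' : ℝ) ^ (2 * (η / 8)) ≤ N := by
        rw [Real.rpow_mul (by positivity), Real.rpow_two, hN]
        gcongr
        exact_mod_cast (Nat.pow_le_pow_left (Nat.le_of_dvd hq qd) 2).trans qn
      have b2 := zero_le_one.trans (one_le_rad q')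
      have b3 := rad_mono (by omega) qd
      rw [hX]
      gcongr
  refine key.trans ?_
  rw [← nr_sq, hκ]
  calc _ = C3 ^ 5 * (7 * C2 * C5) * N ^ 8 * (X * √(√(m : ℝ))) * nr c S ^ 6 := by ring
    _ ≤ _ := by
      gcongr
      exact le_add_of_nonneg_left c5.le

theorem discp {P ε : ℝ} (hP : 2 ≤ P) (hε : 0 < ε) : ∃ (C : ℝ) (A : ℕ), 0 < C ∧ ∀ m q : ℕ,
    1 ≤ m → 1 ≤ q → ∃ (Q : ℕ) (_ : NeZero Q), ∀ (S : Finset (Fin 3 → ℤ)) (c : (Fin 3 → ℤ) → ℂ),
      (∀ b ∈ S, b ⬝ᵥ b = (m * q ^ 2 : ℕ)) →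
      av (fun x : Fin 3 → ZMod Q => ‖fs id c S x‖ ^ P) ≤
        C * ((∏ p ∈ q.primeFactors, (p : ℝ)) ^ A * √(m : ℝ) ^ max (1 / 2 - 5 / (2 * P)) 0 *
          (q : ℝ) ^ max (1 / 2 - 3 / P) 0 * √((m * q ^ 2 : ℕ) : ℝ) ^ ε * nr c S) ^ P := by
  have P0 : 0 < P := by linarith
  rcases le_total P 5 with h5 | h5
  · obtain ⟨C, hC, h⟩ := discq hP hε
    refine ⟨C, 0, hC, fun m q hm hq => ?_⟩
    obtain ⟨Q, hQ, h1⟩ := h (m * q ^ 2) (Nat.mul_pos hm (by positivity))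
    refine ⟨Q, hQ, fun S c hS => (h1 S c hS).trans (le_of_eq ?_)⟩
    have e1 : max (1 / 2 - 5 / (2 * P)) 0 = 0 := max_eq_right (by
      rw [sub_nonpos, div_le_div_iff₀ (by norm_num) (by positivity)]; linarith)
    have e2 : max (1 / 2 - 3 / P) 0 = 0 := max_eq_right (by
      rw [sub_nonpos, div_le_div_iff₀ (by norm_num) (by positivity)]; linarith)
    simp only [e1, e2, Real.rpow_zero, pow_zero, one_mul, zero_add]
  obtain ⟨C1, A, hC1, h1⟩ := disc6 hε
  obtain ⟨C2, hC2, h2⟩ := circ_exists hε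
  have k0 : 0 ≤ (3 * C2) ^ ((P - 6) / 2) := by positivity
  refine ⟨C1 * (2 + (3 * C2) ^ ((P - 6) / 2)), A, by positivity, fun m q hm hq => ?_⟩
  obtain ⟨Q, hQ, h3⟩ := h1 m q hm hq
  refine ⟨Q, hQ, fun S c hS => ?_⟩
  obtain ⟨h4, h6⟩ := h3 S c hS
  have n1 : 1 ≤ m * q ^ 2 := Nat.mul_pos hm (by positivity)
  have hc := card_sphere_le' n1 (by positivity) (h2 _ n1) hS
  have q1 : (1 : ℝ) ≤ q := by exact_mod_cast hq
  have q0 : (0 : ℝ) < q := by linarith
  set w := √(m : ℝ) with hw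
  have w1 : 1 ≤ w := Real.one_le_sqrt.2 (by exact_mod_cast hm)
  have w0 : 0 < w := by linarith
  set l := √((m * q ^ 2 : ℕ) : ℝ) with hl
  have lw : l = w * q := by
    rw [hl, hw]
    push_cast
    rw [Real.sqrt_mul (by positivity), Real.sqrt_sq q0.le]
  have l1 : 1 ≤ l := Real.one_le_sqrt.2 (by exact_mod_cast n1)
  have l0 : 0 < l := by linarith
  have hml : ((m * q ^ 2 : ℕ) : ℝ) ^ ε = l ^ (2 * ε) := by
    rw [Real.rpow_mul l0.le, Real.rpow_two, hl, Real.sq_sqrt (by positivity)]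
  rw [hml] at h4 h6 hc
  set X := (∏ p ∈ q.primeFactors, (p : ℝ)) ^ A with hX
  have X1 : 1 ≤ X := one_le_pow₀ (one_le_rad q)
  have X0 : 0 < X := by linarith
  set s := nr c S with hs
  rcases (nr_nonneg c S).eq_or_lt with h0 | h0
  · have : ∀ x : Fin 3 → ZMod Q, ‖fs id c S x‖ = 0 := fun x => by
      have := fs_sq_le id c S x
      rw [← nr_sq, ← h0] at this
      simpa using this
    have s0 : 0 ≤ s := nr_nonneg c S
    simp only [this, av_const, Real.zero_rpow P0.ne']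
    positivity
  rw [← hs] at h0
  rw [Real.sqrt_eq_rpow w] at h6
  have e0 : ∀ u : ℝ, 0 ≤ u → u ≤ max (1 / 2 - 3 / P) 0 * P → ∀ t : ℝ, t ≤ ε * P →
      X * w ^ ((P - 5) / 2) * (q : ℝ) ^ u * l ^ t * s ^ P ≤ (X * w ^ max (1 / 2 - 5 / (2 * P)) 0 *
        (q : ℝ) ^ max (1 / 2 - 3 / P) 0 * l ^ ε * s) ^ P := by
    intro u u0 hu t ht
    rw [Real.mul_rpow (by positivity) h0.le, Real.mul_rpow (by positivity) (by positivity),
      Real.mul_rpow (by positivity) (by positivity), Real.mul_rpow (by positivity) (by positivity),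
      ← Real.rpow_mul w0.le, ← Real.rpow_mul q0.le, ← Real.rpow_mul l0.le]
    have a1 : X ≤ X ^ P := Real.self_le_rpow_of_one_le X1 (by linarith)
    have a2 : (P - 5) / 2 ≤ max (1 / 2 - 5 / (2 * P)) 0 * P := by
      have a1 := le_max_left (1 / 2 - 5 / (2 * P)) 0
      have a2 : (1 / 2 - 5 / (2 * P)) * P = (P - 5) / 2 := by field_simp
      nlinarith
    gcongr
  have es : s ^ (P - 6) * s ^ 6 = s ^ P := by
    rw [← Real.rpow_natCast _ 6, ← Real.rpow_add h0]; congr 1; push_cast; ring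
  rcases le_total P 6 with h7 | h7
  · set β := w ^ (1 / 2 : ℝ) * s with hβ
    have β0 : 0 < β := by positivity
    have e1 : ∀ y : ℝ, 0 ≤ y → y ^ P ≤ β ^ (P - 5) * y ^ 5 + β ^ (P - 6) * y ^ 6 := by
      intro y hy
      rcases hy.eq_or_lt with rfl | hy0
      · rw [Real.zero_rpow P0.ne']; positivity
      rcases le_total y β with h | h
      · have a2 : y ^ P = y ^ (P - 5) * y ^ 5 := by
          rw [← Real.rpow_natCast _ 5, ← Real.rpow_add hy0]; congr 1; push_cast; ring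
        have a3 : y ^ (P - 5) ≤ β ^ (P - 5) := Real.rpow_le_rpow hy h (by linarith)
        rw [a2]
        exact le_add_of_le_of_nonneg (by gcongr) (by positivity)
      · have a2 : y ^ P = y ^ (P - 6) * y ^ 6 := by
          rw [← Real.rpow_natCast _ 6, ← Real.rpow_add hy0]; congr 1; push_cast; ring
        have a3 : y ^ (P - 6) ≤ β ^ (P - 6) := Real.rpow_le_rpow_of_nonpos β0 h (by linarith)
        rw [a2]
        exact le_add_of_nonneg_of_le (by positivity) (by gcongr)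
    refine (av_mono fun x => e1 _ (norm_nonneg _)).trans ?_
    rw [av_add, av_mul, av_mul]
    have e2 : β ^ (P - 5) = β ^ (P - 6) * β := by
      rw [← Real.rpow_add_one β0.ne']; congr 1; ring
    have e3 : β ^ (P - 6) * w ^ (1 / 2 : ℝ) * s ^ 6 = w ^ ((P - 5) / 2) * s ^ P := by
      rw [hβ, Real.mul_rpow (by positivity) h0.le, ← Real.rpow_mul w0.le, ← es,
        show (P - 5) / 2 = 1 / 2 * (P - 6) + 1 / 2 by ring, Real.rpow_add w0]
      ring
    have e4 := e0 0 le_rfl (by positivity) (2 * ε) (by nlinarith)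
    rw [Real.rpow_zero, mul_one] at e4
    calc _ ≤ β ^ (P - 5) * (C1 * l ^ (2 * ε) * s ^ 5) +
          β ^ (P - 6) * (C1 * l ^ (2 * ε) * (X * w ^ (1 / 2 : ℝ)) * s ^ 6) := by gcongr
      _ = C1 * (1 + X) * l ^ (2 * ε) * (β ^ (P - 6) * w ^ (1 / 2 : ℝ) * s ^ 6) := by
          rw [e2]; nth_rewrite 2 [hβ]; ring
      _ ≤ C1 * (X + X) * l ^ (2 * ε) * (β ^ (P - 6) * w ^ (1 / 2 : ℝ) * s ^ 6) := by gcongr
      _ = C1 * 2 * (X * w ^ ((P - 5) / 2) * l ^ (2 * ε) * s ^ P) := by rw [e3]; ring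
      _ ≤ _ := by gcongr; linarith
  · set B := 3 * C2 * l ^ (1 + 2 * ε) with hB
    have hc' : (S.card : ℝ) ≤ B := by
      rw [hB, Real.rpow_add l0, Real.rpow_one]; linarith
    have B0 : 0 ≤ B := by positivity
    have e1 : ∀ x : Fin 3 → ZMod Q, ‖fs id c S x‖ ^ P ≤
        B ^ ((P - 6) / 2) * s ^ (P - 6) * ‖fs id c S x‖ ^ 6 := by
      intro x
      have a1 : ‖fs id c S x‖ ≤ B ^ (1 / 2 : ℝ) * s := by
        refine (abs_le_of_sq_le_sq' ?_ (by positivity)).2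
        rw [mul_pow, hs, nr_sq, ← Real.sqrt_eq_rpow, Real.sq_sqrt B0]
        exact (fs_sq_le _ _ _ _).trans (mul_le_mul_of_nonneg_right hc' (ms_nonneg _ _))
      have a2 : ‖fs id c S x‖ ^ P = ‖fs id c S x‖ ^ (P - 6) * ‖fs id c S x‖ ^ 6 := by
        rw [← Real.rpow_natCast _ 6, ← Real.rpow_add' (norm_nonneg _) (by push_cast; linarith)]
        congr 1; push_cast; ring
      have a3 : (B ^ (1 / 2 : ℝ) * s) ^ (P - 6) = B ^ ((P - 6) / 2) * s ^ (P - 6) := by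
        rw [Real.mul_rpow (by positivity) h0.le, ← Real.rpow_mul B0]
        congr 2; ring
      rw [a2, ← a3]
      gcongr
    refine (av_mono e1).trans ?_
    rw [av_mul]
    have e3 : B ^ ((P - 6) / 2) = (3 * C2) ^ ((P - 6) / 2) *
        (w ^ ((P - 6) / 2) * (q : ℝ) ^ ((P - 6) / 2) * l ^ (ε * (P - 6))) := by
      rw [hB, Real.mul_rpow (by positivity) (by positivity), ← Real.rpow_mul l0.le,
        ← Real.mul_rpow w0.le q0.le, ← lw, ← Real.rpow_add l0]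
      congr 2; ring
    have e4 := e0 ((P - 6) / 2) (by linarith) (by
      have a1 := le_max_left (1 / 2 - 3 / P) 0
      have a2 : (1 / 2 - 3 / P) * P = (P - 6) / 2 := by field_simp; ring
      nlinarith) (ε * (P - 6) + 2 * ε) (by nlinarith)
    rw [show (P - 5) / 2 = (P - 6) / 2 + 1 / 2 by ring, Real.rpow_add w0, Real.rpow_add l0] at e4
    calc _ ≤ B ^ ((P - 6) / 2) * s ^ (P - 6) *
          (C1 * l ^ (2 * ε) * (X * w ^ (1 / 2 : ℝ)) * s ^ 6) := by gcongr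
      _ = C1 * (3 * C2) ^ ((P - 6) / 2) * (X * (w ^ ((P - 6) / 2) * w ^ (1 / 2 : ℝ)) *
          (q : ℝ) ^ ((P - 6) / 2) * (l ^ (ε * (P - 6)) * l ^ (2 * ε)) * s ^ P) := by
          rw [e3, ← es]; ring
      _ ≤ _ := by gcongr; linarith

theorem main (p : ℝ) (hp : 2 ≤ p) (ε : ℝ) (hε : 0 < ε) : ∃ (C : ℝ) (A : ℕ), ∀ m q : ℕ,
    1 ≤ m → 1 ≤ q → ∀ S : Finset (Fin 3 → ℤ), (∀ ξ ∈ S, ∑ j, (ξ j) ^ 2 = ((m * q ^ 2 : ℕ) : ℤ)) →
    ∀ a : (Fin 3 → ℤ) → ℂ,
      (∫ x in Set.univ.pi (fun _ : Fin 3 => Set.Icc (0 : ℝ) (2 * Real.pi)),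
          ‖∑ ξ ∈ S, a ξ * Complex.exp (Complex.I * ∑ j, ((ξ j : ℂ) * ((x j : ℝ) : ℂ)))‖ ^ p)
          ^ (1 / p)
        ≤ C * (∏ r ∈ q.primeFactors, (r : ℝ)) ^ A *
          (Real.sqrt (m : ℝ)) ^ (max (1 / 2 - 5 / (2 * p)) 0) * (q : ℝ) ^ (max (1 / 2 - 3 / p) 0) *
          (Real.sqrt ((m * q ^ 2 : ℕ) : ℝ)) ^ ε *
          (∫ x in Set.univ.pi (fun _ : Fin 3 => Set.Icc (0 : ℝ) (2 * Real.pi)),
            ‖∑ ξ ∈ S, a ξ * Complex.exp (Complex.I * ∑ j, ((ξ j : ℂ) * ((x j : ℝ) : ℂ)))‖ ^ (2 : ℝ))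
            ^ (1 / 2 : ℝ) := by
  have hT : Fact (0 < 2 * Real.pi) := ⟨Real.two_pi_pos⟩
  obtain ⟨C, A, hC, h⟩ := discp hp hε
  refine ⟨((2 * Real.pi) ^ 3 * C) ^ (1 / p), A, fun m q hm hq S hS a => ?_⟩
  have hS' : ∀ b ∈ S, b ⬝ᵥ b = (m * q ^ 2 : ℕ) := fun b hb => by
    rw [← hS b hb, dotProduct]; simp only [sq]
  obtain ⟨Q, hQ, h1⟩ := h m q hm hq
  have e : ∀ x : Fin 3 → ℝ,
      ∑ ξ ∈ S, a ξ * Complex.exp (Complex.I * ∑ j, ((ξ j : ℂ) * ((x j : ℝ) : ℂ))) =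
        U S a fun l => (x l : AddCircle (2 * Real.pi)) := by
    intro x
    refine sum_congr rfl fun ξ _ => ?_
    simp only [fourier_coe_apply, ← Complex.exp_sum, mul_sum]
    congr 2
    refine sum_congr rfl fun l _ => ?_
    have : (Real.pi : ℂ) ≠ 0 := by exact_mod_cast Real.pi_ne_zero
    push_cast; field_simp
  have p0 : 0 < p := by linarith
  have hc : Continuous fun z : Fin 3 → AddCircle (2 * Real.pi) => ‖U S a z‖ ^ p :=
    (continuous_U S a).norm.rpow_const fun _ => Or.inr p0.le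
  simp only [e, Real.rpow_two]
  rw [box_int hc, box_int (F := fun z => ‖U S a z‖ ^ 2) ((continuous_U S a).norm.pow 2),
    int_sq hS']
  have r0 := zero_le_one.trans (one_le_rad q)
  set l := (∏ r ∈ q.primeFactors, (r : ℝ)) ^ A * √(m : ℝ) ^ max (1 / 2 - 5 / (2 * p)) 0 *
    (q : ℝ) ^ max (1 / 2 - 3 / p) 0 * √((m * q ^ 2 : ℕ) : ℝ) ^ ε with hl
  have l0 : 0 ≤ l := by positivity
  have s0 := nr_nonneg a S
  have h2 := int_le (Q := Q) hc (fun z => by positivity) (B := C * (l * nr a S) ^ p) fun z => by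
    simp only [U_shift]
    refine (h1 S _ hS').trans (le_of_eq ?_)
    simp only [nr, ms_mod, hl]
  have pi1 : 1 ≤ (2 * Real.pi) ^ 3 := one_le_pow₀ (by linarith [Real.pi_gt_three])
  calc _ ≤ ((2 * Real.pi) ^ 3 * (C * (l * nr a S) ^ p)) ^ (1 / p) := by
        gcongr
    _ = ((2 * Real.pi) ^ 3 * C) ^ (1 / p) * l * nr a S := by
        rw [← mul_assoc, Real.mul_rpow (by positivity) (by positivity), one_div,
          Real.rpow_rpow_inv (by positivity) p0.ne', ← mul_assoc]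
    _ ≤ ((2 * Real.pi) ^ 3 * C) ^ (1 / p) * l * ((2 * Real.pi) ^ 3 * ms a S) ^ (1 / 2 : ℝ) := by
        gcongr
        rw [← Real.sqrt_eq_rpow]
        exact Real.sqrt_le_sqrt (le_mul_of_one_le_left (ms_nonneg _ _) pi1)
    _ = _ := by rw [hl]; ring

end Pool.Agent.P.MP_c76d8c_an.SQ
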