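import Pool.Agent.P.MP_c76d8c_an.SQ.Dec

/-! Lattice points of a sphere whose squared radius is divisible by `q ^ 2` lie near the
`p`-adic cone for every prime `p` dividing `q`. -/

namespace Pool.Agent.P.MP_c76d8c_an.SQ

open Finset Matrix

theorem dv {a b b' : ℤ} (h : a ∣ b) (e : b' = b) : a ∣ b' := e ▸ h

/-- Coordinates adapted to the cone. -/
theorem forms (γ z : Fin 3 → ℤ) : ∃ U V : Fin 3 → ℤ,
    γ ⬝ᵥ U = 2 * (z ⬝ᵥ γ) ^ 2 - z ⬝ᵥ z * γ ⬝ᵥ γ ∧ ∀ ξ ξ' : Fin 3 → ℤ, ∃ t : ℤ,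
      2 * (z ⬝ᵥ γ) ^ 2 * ξ ⬝ᵥ ξ' =
        ξ ⬝ᵥ γ * ξ' ⬝ᵥ U + ξ ⬝ᵥ U * ξ' ⬝ᵥ γ - 2 * (ξ ⬝ᵥ V * ξ' ⬝ᵥ V) + γ ⬝ᵥ γ * t := by
  refine ⟨(2 * z ⬝ᵥ γ) • z - (z ⬝ᵥ z) • γ,
    ![γ 1 * z 2 - γ 2 * z 1, γ 2 * z 0 - γ 0 * z 2, γ 0 * z 1 - γ 1 * z 0], ?_,
    fun ξ ξ' => ⟨2 * (ξ ⬝ᵥ ξ' * z ⬝ᵥ z - ξ ⬝ᵥ z * ξ' ⬝ᵥ z), ?_⟩⟩
  · simp only [dot3, Pi.sub_apply, Pi.smul_apply, smul_eq_mul]
    ring
  · simp only [dot3, Pi.sub_apply, Pi.smul_apply, smul_eq_mul, cons_val_zero, cons_val_one,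
      cons_val_two, head_cons, tail_cons]
    ring

theorem arith {p : ℕ} (hp : p.Prime) (h2 : p ≠ 2) {j b R : ℕ} (hR : 2 * b ≤ R)
    {u u' u0 σ σ' : ℤ} (hu0 : ¬ (p : ℤ) ∣ u0) (hu : (p : ℤ) ^ R ∣ u - u0)
    (hu' : (p : ℤ) ^ R ∣ u' - u0) (h1 : (p : ℤ) ^ j ∣ σ) (h3 : ¬ (p : ℤ) ^ (j + 1) ∣ σ)
    (h4 : (p : ℤ) ^ (j + 1) ∣ σ - σ') (h5 : (p : ℤ) ^ (2 * (j + b)) ∣ u * σ ^ 2 - u' * σ' ^ 2) :
    (p : ℤ) ^ (j + 2 * b) ∣ σ - σ' := by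
  have pp : Prime (p : ℤ) := Nat.prime_iff_prime_int.1 hp
  have pj : (p : ℤ) ^ j ≠ 0 := pow_ne_zero _ pp.ne_zero
  obtain ⟨τ, rfl⟩ := h1
  obtain ⟨w, hw⟩ := h4
  obtain rfl : σ' = (p : ℤ) ^ j * (τ - p * w) := by linear_combination -hw
  have a1 : ¬ (p : ℤ) ∣ τ := fun h => h3 (by rw [pow_succ]; exact mul_dvd_mul_left _ h)
  have a2 : (p : ℤ) ^ (2 * b) ∣ u * τ ^ 2 - u' * (τ - p * w) ^ 2 := by
    refine (mul_dvd_mul_iff_left (pow_ne_zero 2 pj)).1 ?_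
    rw [show ((p : ℤ) ^ j) ^ 2 * (p : ℤ) ^ (2 * b) = (p : ℤ) ^ (2 * (j + b)) by ring]
    exact dv h5 (by ring)
  have a3 : (p : ℤ) ^ (2 * b) ∣ (u0 * (2 * τ - p * w)) * (p * w) := by
    have b1 := ((pow_dvd_pow _ hR).trans hu).mul_right (τ ^ 2)
    have b2 := ((pow_dvd_pow _ hR).trans hu').mul_right ((τ - p * w) ^ 2)
    exact dv ((a2.sub b1).add b2) (by ring)
  have a4 : ¬ (p : ℤ) ∣ u0 * (2 * τ - p * w) := fun h => by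
    rcases pp.dvd_or_dvd h with h | h
    · exact hu0 h
    · have b1 : (p : ℤ) ∣ 2 * τ := dv (h.add (dvd_mul_right (p : ℤ) w)) (by ring)
      rcases pp.dvd_or_dvd b1 with h | h
      · exact h2 ((Nat.prime_dvd_prime_iff_eq hp Nat.prime_two).1 (by exact_mod_cast h))
      · exact a1 h
  have a5 := pp.pow_dvd_of_dvd_mul_left _ a4 a3
  rw [pow_add]
  exact dv (mul_dvd_mul_left ((p : ℤ) ^ j) a5) (by ring)

variable {Q : ℕ} [NeZero Q] {ι : Type*}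

theorem ch_y {g M Q' : ℤ} (h : (Q : ℤ) = g * M * Q') (φ ξ : Fin 3 → ℤ) :
    ch (g • ξ) (fun l => ((Q' * φ l : ℤ) : ZMod Q)) = 1 ↔ M ∣ ξ ⬝ᵥ φ := by
  have Q0 : (Q : ℤ) ≠ 0 := by exact_mod_cast NeZero.ne Q
  have e : ch (g • ξ) (fun l => ((Q' * φ l : ℤ) : ZMod Q)) =
      ZMod.stdAddChar (((g * Q') * ξ ⬝ᵥ φ : ℤ) : ZMod Q) := by
    unfold ch
    congr 1
    simp only [dot3, Fin.sum_univ_three, Pi.smul_apply, smul_eq_mul]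
    push_cast
    ring
  have g0 : g * Q' ≠ 0 := fun h0 => Q0 (by rw [h]; linear_combination M * h0)
  rw [e, ← (ZMod.stdAddChar (N := Q)).map_zero_eq_one, ZMod.injective_stdAddChar.eq_iff,
    ZMod.intCast_zmod_eq_zero_iff_dvd, h, show g * M * Q' = g * Q' * M by ring,
    mul_dvd_mul_iff_left g0]

variable {a : ι → Fin 3 → ℤ} {c : ι → ℂ}

/-- Decoupling at one prime. -/
theorem pstep {p : ℕ} (hp : p.Prime) (h2 : p ≠ 2) {k r : ℕ} (hk : 1 ≤ k) {g : ℤ}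
    (hQ : g * (p : ℤ) ^ (2 * k) ∣ Q) {v : ι → Fin 3 → ℤ} {A : Finset ι}
    (ha : ∀ b ∈ A, a b = g • v b) (hv : ∀ b ∈ A, (p : ℤ) ^ (2 * k) ∣ v b ⬝ᵥ v b)
    (hz : ∀ b ∈ A, ∃ z : Fin 3 → ℤ, ¬ (p : ℤ) ∣ z ⬝ᵥ v b) {κ τ δ : ℝ} (hκ : 0 ≤ κ) (hτ : 0 < τ)
    (hτ1 : τ ≤ 1) (hδ : 0 < δ) (hc : (1 + δ) ^ 6 * τ ^ 2 + (p : ℝ) ^ 11 / δ ^ 3 * τ ^ r ≤ 1)
    (h0 : ∀ B ⊆ A, (∀ b ∈ B, ∀ b' ∈ B, (p : ℤ) ^ (2 * k) ∣ v b ⬝ᵥ v b') →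
      E6 Q a c B ≤ κ * ms c B ^ 3) :
    E6 Q a c A ≤ (p : ℝ) ^ (20 * 2 ^ r) / τ ^ (2 * k) * κ * ms c A ^ 3 := by
  classical
  have pp : Prime (p : ℤ) := Nat.prime_iff_prime_int.1 hp
  have p0 : (0 : ℤ) < (p : ℤ) ^ 2 ^ r := by have := hp.pos; positivity
  have p2 : ¬ (p : ℤ) ∣ 2 := fun h =>
    h2 ((Nat.prime_dvd_prime_iff_eq hp Nat.prime_two).1 (by exact_mod_cast h))
  have hZ : ∀ b ∈ A, (fun l => v b l % (p : ℤ) ^ 2 ^ r) ∈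
      Fintype.piFinset fun _ : Fin 3 => Ico (0 : ℤ) ((p : ℤ) ^ 2 ^ r) := fun b _ =>
    Fintype.mem_piFinset.2 fun l =>
      mem_Ico.2 ⟨Int.emod_nonneg _ p0.ne', Int.emod_lt_of_pos _ p0⟩
  refine (split hZ (e := (p : ℝ) ^ (5 * 2 ^ r) / τ ^ (2 * k) * κ) (P := ((p : ℝ) ^ 2 ^ r) ^ 3)
    (by positivity) (le_of_eq ?_) fun ζ _ => ?_).trans (le_of_eq (by ring))
  · rw [Fintype.card_piFinset, prod_const, card_univ, Fintype.card_fin, Int.card_Ico, sub_zero,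
      ← Nat.cast_pow, Int.toNat_natCast]
    push_cast
    rfl
  set A' := A.filter fun b => (fun l => v b l % (p : ℤ) ^ 2 ^ r) = ζ with hA'
  have s1 : A' ⊆ A := filter_subset _ _
  rcases A'.eq_empty_or_nonempty with h | ⟨b0, hb0⟩
  · rw [h]; simp [E6, fs, ms, av]
  obtain ⟨z, hz0⟩ := hz b0 (s1 hb0)
  set γ := v b0 with hγ
  obtain ⟨U, V, hU, hI⟩ := forms γ z
  have hγγ : (p : ℤ) ^ (2 * k) ∣ γ ⬝ᵥ γ := hv b0 (s1 hb0)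
  have pk : (p : ℤ) ∣ (p : ℤ) ^ (2 * k) := dvd_pow_self _ (by omega)
  have hh : ¬ (p : ℤ) ∣ 2 * (z ⬝ᵥ γ) ^ 2 := fun h =>
    (pp.dvd_or_dvd h).elim p2 fun h => hz0 (pp.dvd_of_dvd_pow h)
  have u0 : ¬ (p : ℤ) ∣ γ ⬝ᵥ U := fun h => hh
    (dv (h.add ((pk.trans hγγ).mul_left (z ⬝ᵥ z))) (by rw [hU]; ring))
  have u1 : ∀ b ∈ A', (p : ℤ) ^ 2 ^ r ∣ v b ⬝ᵥ U - γ ⬝ᵥ U := fun b hb => by
    rw [← sub_dotProduct]
    refine dvd_sum fun l _ => Dvd.dvd.mul_right ?_ _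
    have := congrFun ((mem_filter.1 hb).2.trans (mem_filter.1 hb0).2.symm) l
    exact Int.dvd_iff_emod_eq_zero.2 (Int.emod_eq_emod_iff_emod_sub_eq_zero.1 this)
  have u2 : ∀ b ∈ A', ¬ (p : ℤ) ∣ v b ⬝ᵥ U := fun b hb h => u0
    (dv (h.sub ((dvd_pow_self _ (by positivity)).trans (u1 b hb))) (by ring))
  have hs : ∀ b, ∃ s : ℤ, b ∈ A' → (p : ℤ) ^ (2 * k) ∣ v b ⬝ᵥ V - v b ⬝ᵥ U * s ∧
      (p : ℤ) ^ (2 * k) ∣ v b ⬝ᵥ γ - v b ⬝ᵥ U * s ^ 2 := fun b => by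
    by_cases hb : b ∈ A'
    swap
    · exact ⟨0, fun h => absurd h hb⟩
    obtain ⟨x, y, hxy⟩ : IsCoprime ((p : ℤ) ^ (2 * k)) (v b ⬝ᵥ U) :=
      ((pp.irreducible.coprime_iff_not_dvd).2 (u2 b hb)).pow_left
    have e1 : (p : ℤ) ^ (2 * k) ∣ v b ⬝ᵥ V - v b ⬝ᵥ U * (y * v b ⬝ᵥ V) :=
      ⟨x * v b ⬝ᵥ V, by linear_combination (-(v b ⬝ᵥ V)) * hxy⟩
    refine ⟨y * v b ⬝ᵥ V, fun _ => ⟨e1, ?_⟩⟩
    obtain ⟨t, ht⟩ := hI (v b) (v b)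
    refine pp.pow_dvd_of_dvd_mul_left _ (a := 2 * v b ⬝ᵥ U)
      (fun h => (pp.dvd_or_dvd h).elim p2 (u2 b hb)) ?_
    have e2 := (((hv b (s1 hb)).mul_left (2 * (z ⬝ᵥ γ) ^ 2)).sub (hγγ.mul_right t)).add
      (e1.mul_right (2 * (v b ⬝ᵥ V + v b ⬝ᵥ U * (y * v b ⬝ᵥ V))))
    exact dv e2 (by linear_combination -ht)
  choose s hs using hs
  refine dec hp.pos (s := s) (fun j b hb hj t ht => ?_) hκ hτ hτ1 hδ hc fun B hB h => ?_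
  · have hM : (p : ℤ) ^ (2 * (j + b)) ∣ (p : ℤ) ^ (2 * k) := pow_dvd_pow _ (by omega)
    obtain ⟨Q', hQ'⟩ := (mul_dvd_mul_left g hM).trans hQ
    set φ : Fin 3 → ℤ := γ - (2 * s t) • V + s t ^ 2 • U with hφ
    have e1 : ∀ β ∈ A', (p : ℤ) ^ (2 * (j + b)) ∣ v β ⬝ᵥ φ - v β ⬝ᵥ U * (s β - s t) ^ 2 :=
      fun β hβ => by
        refine hM.trans ?_
        refine dv ((hs β hβ).2.sub ((hs β hβ).1.mul_left (2 * s t))) ?_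
        rw [hφ, dotProduct_add, dotProduct_sub, dotProduct_smul, dotProduct_smul, smul_eq_mul,
          smul_eq_mul]
        ring
    refine ⟨fun l => ((Q' * φ l : ℤ) : ZMod Q), fun β hβ h => ?_, fun β hβ β' hβ' a1 a2 a3 a4 => ?_⟩
    · rw [ha β (s1 hβ), ch_y hQ']
      have e2 : (p : ℤ) ^ (2 * (j + b)) ∣ (s β - s t) ^ 2 := by
        rw [pow_mul']; exact pow_dvd_pow_of_dvd h 2
      exact dv ((e1 β hβ).add (e2.mul_left (v β ⬝ᵥ U))) (by ring)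
    · rw [ha β (s1 hβ), ha β' (s1 hβ'), ← smul_sub, ch_y hQ', sub_dotProduct] at a4
      have := arith hp h2 hb u0 (u1 β hβ) (u1 β' hβ') (σ := s β - s t) (σ' := s β' - s t) a1 a2
        (dv a3 (by ring)) (dv ((a4.sub (e1 β hβ)).add (e1 β' hβ')) (by ring))
      exact dv this (by ring)
  · refine h0 B (hB.trans s1) fun b hb b' hb' => pp.pow_dvd_of_dvd_mul_left _ hh ?_
    obtain ⟨t, ht⟩ := hI (v b) (v b')
    obtain ⟨a1, a2⟩ := hs b (hB hb)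
    obtain ⟨a3, a4⟩ := hs b' (hB hb')
    have e2 : (p : ℤ) ^ (2 * k) ∣ (s b - s b') ^ 2 := by
      rw [pow_mul']; exact pow_dvd_pow_of_dvd (h b hb b' hb') 2
    refine dv (((((hγγ.mul_right t).add (e2.mul_left (v b ⬝ᵥ U * v b' ⬝ᵥ U))).add
      (a2.mul_right (v b' ⬝ᵥ U))).add (a4.mul_left (v b ⬝ᵥ U))).sub
      ((a1.mul_right (2 * v b' ⬝ᵥ V)).add (a3.mul_left (2 * (v b ⬝ᵥ U * s b))))) ?_
    linear_combination ht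

/-- Decoupling at all primes of `q`. -/
theorem mstep {η : ℝ} (hη : 0 < η) {δ : ℝ} {r : ℕ} (hδ : 0 < δ) (hc : ∀ p : ℕ, 2 ≤ p →
      (1 + δ) ^ 6 * ((p : ℝ) ^ (-η)) ^ 2 + (p : ℝ) ^ 11 / δ ^ 3 * ((p : ℝ) ^ (-η)) ^ r ≤ 1)
    {q : ℕ} (hq : q ≠ 0) (h2 : ¬ 2 ∣ q) {g : ℤ} (hQ : g * (q : ℤ) ^ 2 ∣ Q) {v : ι → Fin 3 → ℤ}
    {A : Finset ι} (ha : ∀ b ∈ A, a b = g • v b) (hv : ∀ b ∈ A, (q : ℤ) ^ 2 ∣ v b ⬝ᵥ v b)
    (hz : ∀ b ∈ A, ∃ z : Fin 3 → ℤ, IsCoprime (z ⬝ᵥ v b) q) {κ : ℝ} (hκ : 0 ≤ κ)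
    (h0 : ∀ B ⊆ A, (∀ b ∈ B, ∀ b' ∈ B, (q : ℤ) ^ 2 ∣ v b ⬝ᵥ v b') → E6 Q a c B ≤ κ * ms c B ^ 3) :
    E6 Q a c A ≤ (∏ p ∈ q.primeFactors, (p : ℝ)) ^ (20 * 2 ^ r) * (q : ℝ) ^ (2 * η) * κ *
      ms c A ^ 3 := by
  classical
  have hprod : ∏ p ∈ q.primeFactors, p ^ q.factorization p = q  :=
    Nat.prod_factorization_pow_eq_self hq
  have hd : ∀ p : ℕ, (p : ℤ) ^ (2 * q.factorization p) ∣ (q : ℤ) ^ 2 := fun p => by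
    rw [pow_mul']
    exact pow_dvd_pow_of_dvd (by exact_mod_cast Nat.ordProj_dvd q p) 2
  have key : ∀ R : Finset ℕ, R ⊆ q.primeFactors → ∀ B ⊆ A, (∀ p ∈ q.primeFactors, p ∉ R →
      ∀ b ∈ B, ∀ b' ∈ B, (p : ℤ) ^ (2 * q.factorization p) ∣ v b ⬝ᵥ v b') →
      E6 Q a c B ≤ (∏ p ∈ R, (p : ℝ) ^ (20 * 2 ^ r) /
        ((p : ℝ) ^ (-η)) ^ (2 * q.factorization p)) * κ * ms c B ^ 3 := by
    intro R
    induction R using Finset.induction_on with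
    | empty =>
      intro _ B hB h
      rw [prod_empty, one_mul]
      refine h0 B hB fun b hb b' hb' => ?_
      have e : (q : ℤ) ^ 2 = ∏ p ∈ q.primeFactors, (p : ℤ) ^ (2 * q.factorization p) := by
        conv_lhs => rw [← hprod]
        push_cast
        rw [← prod_pow]
        exact prod_congr rfl fun p _ => (pow_mul' _ _ _).symm
      rw [e]
      refine prod_dvd_of_coprime (fun p hp p' hp' hne => ?_) fun p hp => h p hp (by simp) b hb b' hb'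
      exact (Nat.isCoprime_iff_coprime.2 ((Nat.coprime_primes (Nat.prime_of_mem_primeFactors hp)
        (Nat.prime_of_mem_primeFactors hp')).2 hne)).pow
    | insert p R hpR ih =>
      intro hR B hB h
      have hp := hR (mem_insert_self _ _)
      have pp := Nat.prime_of_mem_primeFactors hp
      have pd := Nat.dvd_of_mem_primeFactors hp
      have p1 : (1 : ℝ) ≤ p := by exact_mod_cast pp.pos
      rw [prod_insert hpR, mul_assoc _ _ κ]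
      refine pstep pp (fun h => h2 (h ▸ pd)) (pp.factorization_pos_of_dvd hq pd)
        ((mul_dvd_mul_left g (hd p)).trans hQ) (fun b hb => ha b (hB hb))
        (fun b hb => (hd p).trans (hv b (hB hb))) (fun b hb => ?_)
        (mul_nonneg (prod_nonneg fun _ _ => by positivity) hκ) (by positivity)
        (Real.rpow_le_one_of_one_le_of_nonpos p1 (by linarith)) hδ (hc p pp.two_le)
        fun B' hB' h' => ih ((subset_insert _ _).trans hR) B' (hB'.trans hB)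
          fun p' hp' hn b hb b' hb' => ?_
      · obtain ⟨z, hz'⟩ := hz b (hB hb)
        exact ⟨z, fun h => (Nat.prime_iff_prime_int.1 pp).not_isUnit
          (hz'.isUnit_of_dvd' h (by exact_mod_cast pd))⟩
      · by_cases he : p' = p
        · rw [he]; exact h' b hb b' hb'
        · exact h p' hp' (by simp [he, hn]) b (hB' hb) b' (hB' hb')
  refine (key _ Subset.rfl A Subset.rfl fun p hp hn => absurd hp hn).trans (le_of_eq ?_)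
  congr 2
  have e : (q : ℝ) ^ (2 * η) = ∏ p ∈ q.primeFactors, ((p : ℝ) ^ q.factorization p) ^ (2 * η) := by
    rw [Real.finsetProd_rpow _ _ fun _ _ => by positivity]
    conv_lhs => rw [← hprod]
    push_cast
    rfl
  rw [e, ← prod_pow, ← prod_mul_distrib]
  refine prod_congr rfl fun p hp => ?_
  have p0 : (0 : ℝ) < p := by exact_mod_cast (Nat.prime_of_mem_primeFactors hp).pos
  rw [div_eq_mul_inv, ← Real.rpow_natCast ((p : ℝ) ^ (-η)), ← Real.rpow_mul p0.le,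
    ← Real.rpow_neg p0.le, ← Real.rpow_natCast (p : ℝ) (q.factorization p), ← Real.rpow_mul p0.le]
  congr 2
  push_cast
  ring

/-- A short vector whose inner products with a plank are divisible by `q ^ 2`. -/
theorem short {q : ℕ} (hq : q ≠ 0) (h2 : ¬ 2 ∣ q) {γ z : Fin 3 → ℤ} (hz : IsCoprime (z ⬝ᵥ γ) q)
    (hγ : (q : ℤ) ^ 2 ∣ γ ⬝ᵥ γ) : ∃ d : Fin 3 → ℤ, d ≠ 0 ∧ (∀ l, |d l| ≤ q) ∧
      ∀ ξ : Fin 3 → ℤ, (q : ℤ) ^ 2 ∣ ξ ⬝ᵥ ξ → (q : ℤ) ^ 2 ∣ ξ ⬝ᵥ γ → (q : ℤ) ^ 2 ∣ ξ ⬝ᵥ d := by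
  obtain ⟨U, V, -, hI⟩ := forms γ z
  have q0 : (0 : ℤ) < q := by exact_mod_cast Nat.pos_of_ne_zero hq
  have c2 : IsCoprime ((q : ℤ) ^ 2) 2 :=
    (Nat.isCoprime_iff_coprime.2 ((Nat.prime_two.coprime_iff_not_dvd.2 h2).symm)).pow_left
  obtain ⟨d1, h1, d2, h3, hne, he⟩ := exists_ne_map_eq_of_card_lt_of_maps_to
    (s := Fintype.piFinset fun _ : Fin 3 => Icc (0 : ℤ) q)
    (t := Ico (0 : ℤ) ((q : ℤ) ^ 2) ×ˢ Ico (0 : ℤ) q)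
    (f := fun d => (d ⬝ᵥ γ % (q : ℤ) ^ 2, d ⬝ᵥ V % q))
    (by
      rw [card_product, Fintype.card_piFinset, prod_const, card_univ, Fintype.card_fin,
        Int.card_Ico, Int.card_Ico, Int.card_Icc, sub_zero, sub_zero, sub_zero, ← Nat.cast_pow,
        ← Nat.cast_succ, Int.toNat_natCast, Int.toNat_natCast, Int.toNat_natCast, ← pow_succ]
      exact Nat.pow_lt_pow_left (Nat.lt_succ_self q) (by norm_num))
    (fun d _ => mem_coe.2 (mem_product.2 ⟨mem_Ico.2 ⟨Int.emod_nonneg _ (by positivity),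
      Int.emod_lt_of_pos _ (by positivity)⟩,
      mem_Ico.2 ⟨Int.emod_nonneg _ q0.ne', Int.emod_lt_of_pos _ q0⟩⟩))
  obtain ⟨e1, e2⟩ := Prod.mk.inj he
  have a1 : (q : ℤ) ^ 2 ∣ (d1 - d2) ⬝ᵥ γ := by
    rw [sub_dotProduct]
    exact Int.dvd_iff_emod_eq_zero.2 (Int.emod_eq_emod_iff_emod_sub_eq_zero.1 e1)
  have a2 : (q : ℤ) ∣ (d1 - d2) ⬝ᵥ V := by
    rw [sub_dotProduct]
    exact Int.dvd_iff_emod_eq_zero.2 (Int.emod_eq_emod_iff_emod_sub_eq_zero.1 e2)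
  refine ⟨d1 - d2, sub_ne_zero.2 hne, fun l => ?_, fun ξ b1 b2 => ?_⟩
  · have c1 := mem_Icc.1 (Fintype.mem_piFinset.1 h1 l)
    have c3 := mem_Icc.1 (Fintype.mem_piFinset.1 h3 l)
    rw [Pi.sub_apply, abs_le]
    omega
  · have a3 : (q : ℤ) ∣ ξ ⬝ᵥ V := by
      obtain ⟨t, ht⟩ := hI ξ ξ
      refine (Int.pow_dvd_pow_iff two_ne_zero).1 (c2.dvd_of_dvd_mul_left ?_)
      refine dv (((b2.mul_right (2 * ξ ⬝ᵥ U)).add (hγ.mul_right t)).sub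
        (b1.mul_left (2 * (z ⬝ᵥ γ) ^ 2))) ?_
      linear_combination ht
    obtain ⟨t, ht⟩ := hI ξ (d1 - d2)
    refine (c2.mul_right (hz.symm.pow (m := 2) (n := 2))).dvd_of_dvd_mul_left ?_
    rw [ht]
    refine (((b2.mul_right _).add (a1.mul_left _)).sub (Dvd.dvd.mul_left ?_ _)).add
      (hγ.mul_right _)
    rw [sq]
    exact mul_dvd_mul a3 a2

/-- A plank carries few points of the sphere. -/
theorem plank {n m q : ℕ} (hm : 1 ≤ m) (hq : q ≠ 0) (h2 : ¬ 2 ∣ q) (hqn : q ≤ n) {t : ℝ}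
    (ht : 0 ≤ t) (hC : Circ n t) {g : ℤ} {v : (Fin 3 → ℤ) → Fin 3 → ℤ} {B : Finset (Fin 3 → ℤ)}
    (hn : ∀ b ∈ B, b ⬝ᵥ b = n) (ha : ∀ b ∈ B, b = g • v b)
    (hv : ∀ b ∈ B, v b ⬝ᵥ v b = m * (q : ℤ) ^ 2)
    (hz : ∀ b ∈ B, ∃ z : Fin 3 → ℤ, IsCoprime (z ⬝ᵥ v b) q)
    (h : ∀ b ∈ B, ∀ b' ∈ B, (q : ℤ) ^ 2 ∣ v b ⬝ᵥ v b') : (B.card : ℝ) ≤ 7 * √(m : ℝ) * t := by
  rcases B.eq_empty_or_nonempty with rfl | ⟨b0, hb0⟩
  · simp only [card_empty, Nat.cast_zero]; positivity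
  obtain ⟨z, hz0⟩ := hz b0 hb0
  obtain ⟨d, d0, d1, d2⟩ := short hq h2 hz0 (h b0 hb0 b0 hb0)
  have q0 : (0 : ℤ) < (q : ℤ) ^ 2 := by have := Nat.pos_of_ne_zero hq; positivity
  have hi : ∀ b ∈ B, v b ⬝ᵥ d = (q : ℤ) ^ 2 * (v b ⬝ᵥ d / (q : ℤ) ^ 2) := fun b hb =>
    (Int.mul_ediv_cancel' (d2 _ (h b hb b hb) (h b hb b0 hb0))).symm
  have hmem : ∀ b ∈ B, v b ⬝ᵥ d / (q : ℤ) ^ 2 ∈
      Icc (-(2 * Nat.sqrt m + 1 : ℤ)) (2 * Nat.sqrt m + 1) := fun b hb => by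
    have a1 := sum_mul_sq_le_sq_mul_sq univ (v b) d
    have a2 : ∑ l, v b l ^ 2 = m * (q : ℤ) ^ 2 := by
      rw [← hv b hb, dotProduct]; simp only [sq]
    have a3 : ∑ l, d l ^ 2 ≤ 3 * (q : ℤ) ^ 2 := by
      have := fun l => sq_le_sq' (abs_le.1 (d1 l)).1 (abs_le.1 (d1 l)).2
      rw [Fin.sum_univ_three]
      linarith [this 0, this 1, this 2]
    have a4 : (v b ⬝ᵥ d) ^ 2 ≤ m * (q : ℤ) ^ 2 * (3 * (q : ℤ) ^ 2) := by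
      refine le_trans a1 ?_
      rw [a2]
      gcongr
    rw [hi b hb] at a4
    set i := v b ⬝ᵥ d / (q : ℤ) ^ 2
    have a5 : i ^ 2 ≤ 3 * m := by
      refine le_of_mul_le_mul_left ?_ (pow_pos q0 2)
      linarith
    have a6 : (m : ℤ) < ((Nat.sqrt m : ℤ) + 1) ^ 2 := by exact_mod_cast Nat.lt_succ_sqrt' m
    have a7 : i ^ 2 < (2 * (Nat.sqrt m : ℤ) + 2) ^ 2 := by nlinarith
    have := abs_lt_of_sq_lt_sq' a7 (by positivity)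
    rw [mem_Icc]
    omega
  rw [card_eq_sum_card_fiberwise hmem]
  push_cast
  refine (sum_le_card_nsmul _ _ t fun i _ => hC d d0 (fun l => (d1 l).trans (by omega))
    (g * ((q : ℤ) ^ 2 * i)) _ fun b hb => ⟨hn b (mem_filter.1 hb).1, ?_⟩).trans ?_
  · obtain ⟨hb1, hb2⟩ := mem_filter.1 hb
    rw [← hb2, ← hi b hb1]
    conv_lhs => rw [ha b hb1]
    rw [smul_dotProduct, smul_eq_mul]
  · rw [nsmul_eq_mul]
    gcongr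
    have h1 : (Icc (-(2 * Nat.sqrt m + 1 : ℤ)) (2 * Nat.sqrt m + 1)).card = 4 * Nat.sqrt m + 3 := by
      rw [Int.card_Icc]; omega
    have h3 : (Nat.sqrt m : ℝ) ≤ √(m : ℝ) := Real.nat_sqrt_le_real_sqrt
    have h4 : 1 ≤ √(m : ℝ) := Real.one_le_sqrt.2 (by exact_mod_cast hm)
    rw [h1]; push_cast; linarith

theorem bez (b : Fin 3 → ℤ) (q : ℕ) : ∃ (g : ℕ) (v z : Fin 3 → ℤ) (y : ℤ),
    g ∣ q ∧ b = (g : ℤ) • v ∧ z ⬝ᵥ b + y * q = g := by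
  set g1 : ℤ := (Int.gcd (b 0) (b 1) : ℤ) with h1
  set g2 : ℤ := (Int.gcd g1 (b 2) : ℤ) with h2
  set g : ℕ := Int.gcd g2 q with h3
  have e1 := Int.gcd_eq_gcd_ab (b 0) (b 1)
  have e2 := Int.gcd_eq_gcd_ab g1 (b 2)
  have e3 := Int.gcd_eq_gcd_ab g2 q
  rw [← h1] at e1
  rw [← h2] at e2
  rw [← h3] at e3
  have d2 : (g : ℤ) ∣ g2 := Int.gcd_dvd_left _ _
  have d1 : (g : ℤ) ∣ g1 := d2.trans (Int.gcd_dvd_left _ _)
  have d : ∀ l, (g : ℤ) ∣ b l := fun l => by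
    fin_cases l
    · exact d1.trans (Int.gcd_dvd_left _ _)
    · exact d1.trans (Int.gcd_dvd_right _ _)
    · exact d2.trans (Int.gcd_dvd_right _ _)
  choose v hv using d
  refine ⟨g, v, ![Int.gcdA (b 0) (b 1) * Int.gcdA g1 (b 2) * Int.gcdA g2 q,
    Int.gcdB (b 0) (b 1) * Int.gcdA g1 (b 2) * Int.gcdA g2 q, Int.gcdB g1 (b 2) * Int.gcdA g2 q],
    Int.gcdB g2 q, Int.natCast_dvd_natCast.1 (Int.gcd_dvd_right _ _), funext hv, ?_⟩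
  simp only [dot3, cons_val_zero, cons_val_one, cons_val_two, head_cons, tail_cons]
  linear_combination -e3 - Int.gcdA g2 q * e2 - Int.gcdA g1 (b 2) * Int.gcdA g2 q * e1

theorem even_of_four {v : Fin 3 → ℤ} (h : 4 ∣ v ⬝ᵥ v) (z : Fin 3 → ℤ) : 2 ∣ z ⬝ᵥ v := by
  have k : ∀ x : ℤ, x % 2 = 0 ∧ x * x % 4 = 0 ∨ x % 2 = 1 ∧ x * x % 4 = 1 := fun x => by
    obtain ⟨w, rfl | rfl⟩ := Int.even_or_odd' x
    · refine Or.inl ⟨by omega, ?_⟩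
      rw [show 2 * w * (2 * w) = 4 * (w * w) by ring]; omega
    · refine Or.inr ⟨by omega, ?_⟩
      rw [show (2 * w + 1) * (2 * w + 1) = 4 * (w * w + w) + 1 by ring]; omega
  rw [dot3] at h
  have k0 := k (v 0)
  have k1 := k (v 1)
  have k2 := k (v 2)
  rw [dot3]
  exact ((Dvd.dvd.mul_left (by omega) _).add (Dvd.dvd.mul_left (by omega) _)).add
    (Dvd.dvd.mul_left (by omega) _)

end Pool.Agent.P.MP_c76d8c_an.SQ
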